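import Pool.Agent.Helper24.KK.GoalsA

/-!
# Packet KK-CNT (helper24)
-/

set_option autoImplicit false

namespace Pool.Agent.Helper83.KK

open Pool.Agent.Helper24.KK
open Finset

theorem cnt : CNT := by
  intro Φ _ _ l s t r hst hl hR
  have hC : (0 : ℝ) ≤ ((Fintype.card Φ - 2).choose (l - 1) : ℝ) := Nat.cast_nonneg _
  have hfr : (0 : ℝ) ≤ (l : ℝ) / Fintype.card Φ := by positivity
  by_cases hrs : r = s
  · subst hrs
    rw [if_pos rfl]
    have h1 : (univ.filter fun S : Sl Φ l => r ∈ S.1 ∧ t ∉ S.1 ∧ r ∈ S.1).card ≤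
        (powersetCard (l - 1) ((univ.erase r).erase t)).card := by
      refine Finset.card_le_card_of_injOn (fun S => S.1.erase r) ?_ ?_
      · intro S hS
        have hS' := (mem_filter.mp (mem_coe.mp hS)).2
        refine mem_coe.mpr (mem_powersetCard.mpr ⟨?_, ?_⟩)
        · intro x hx
          have hx' := mem_erase.mp hx
          exact mem_erase.mpr ⟨fun h => hS'.2.1 (h ▸ hx'.2), mem_erase.mpr ⟨hx'.1, mem_univ _⟩⟩
        · rw [card_erase_of_mem hS'.1, S.2]
      · intro S hS T hT h
        have hS' := (mem_filter.mp (mem_coe.mp hS)).2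
        have hT' := (mem_filter.mp (mem_coe.mp hT)).2
        apply Subtype.ext
        rw [← insert_erase hS'.1, ← insert_erase hT'.1]
        exact congrArg (insert r) h
    rw [card_powersetCard, card_erase_of_mem (mem_erase.mpr ⟨hst.symm, mem_univ _⟩),
      card_erase_of_mem (mem_univ _), card_univ, Nat.sub_sub] at h1
    have h2 : ((univ.filter fun S : Sl Φ l => r ∈ S.1 ∧ t ∉ S.1 ∧ r ∈ S.1).card : ℝ) ≤
        ((Fintype.card Φ - 2).choose (l - 1) : ℝ) := by exact_mod_cast h1
    refine h2.trans ?_
    nlinarith [mul_nonneg hC hfr]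
  · rw [if_neg hrs]
    by_cases hrt : r = t
    · subst hrt
      have h1 : (univ.filter fun S : Sl Φ l => s ∈ S.1 ∧ r ∉ S.1 ∧ r ∈ S.1) = ∅ := by
        rw [filter_eq_empty_iff]
        intro S _ h
        exact h.2.1 h.2.2
      rw [h1, card_empty, Nat.cast_zero]
      positivity
    · have hcard3 : 3 ≤ Fintype.card Φ := by
        have : ({s, t, r} : Finset Φ).card = 3 :=
          card_eq_three.mpr ⟨s, t, r, hst, fun h => hrs h.symm, fun h => hrt h.symm, rfl⟩
        rw [← this]
        exact card_le_univ _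
      obtain hl1 | hl2 : l = 1 ∨ 2 ≤ l := by omega
      · subst hl1
        have h1 : (univ.filter fun S : Sl Φ 1 => s ∈ S.1 ∧ t ∉ S.1 ∧ r ∈ S.1) = ∅ := by
          rw [filter_eq_empty_iff]
          intro S _ h
          obtain ⟨a, ha⟩ := card_eq_one.mp S.2
          rw [ha] at h
          exact hrs ((mem_singleton.mp h.2.2).trans (mem_singleton.mp h.1).symm)
        rw [h1, card_empty, Nat.cast_zero]
        positivity
      · have h1 : (univ.filter fun S : Sl Φ l => s ∈ S.1 ∧ t ∉ S.1 ∧ r ∈ S.1).card ≤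
            (powersetCard (l - 2) (((univ.erase s).erase t).erase r)).card := by
          refine Finset.card_le_card_of_injOn (fun S => (S.1.erase s).erase r) ?_ ?_
          · intro S hS
            have hS' := (mem_filter.mp (mem_coe.mp hS)).2
            refine mem_coe.mpr (mem_powersetCard.mpr ⟨?_, ?_⟩)
            · intro x hx
              have hx1 := mem_erase.mp hx
              have hx2 := mem_erase.mp hx1.2
              exact mem_erase.mpr ⟨hx1.1, mem_erase.mpr ⟨fun h => hS'.2.1 (h ▸ hx2.2),
                mem_erase.mpr ⟨hx2.1, mem_univ _⟩⟩⟩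
            · rw [card_erase_of_mem (mem_erase.mpr ⟨hrs, hS'.2.2⟩), card_erase_of_mem hS'.1, S.2]
              omega
          · intro S hS T hT h
            have hS' := (mem_filter.mp (mem_coe.mp hS)).2
            have hT' := (mem_filter.mp (mem_coe.mp hT)).2
            apply Subtype.ext
            have e1 : S.1.erase s = T.1.erase s := by
              rw [← insert_erase (mem_erase.mpr ⟨hrs, hS'.2.2⟩ : r ∈ S.1.erase s),
                ← insert_erase (mem_erase.mpr ⟨hrs, hT'.2.2⟩ : r ∈ T.1.erase s)]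
              exact congrArg (insert r) h
            rw [← insert_erase hS'.1, ← insert_erase hT'.1]
            exact congrArg (insert s) e1
        rw [card_powersetCard, card_erase_of_mem (mem_erase.mpr ⟨hrt,
          mem_erase.mpr ⟨hrs, mem_univ _⟩⟩), card_erase_of_mem (mem_erase.mpr ⟨hst.symm,
          mem_univ _⟩), card_erase_of_mem (mem_univ _), card_univ, Nat.sub_sub, Nat.sub_sub] at h1
        have h2 : ((univ.filter fun S : Sl Φ l => s ∈ S.1 ∧ t ∉ S.1 ∧ r ∈ S.1).card : ℝ) ≤
            ((Fintype.card Φ - 3).choose (l - 2) : ℝ) := by exact_mod_cast h1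
        refine h2.trans ?_
        obtain ⟨n, hn⟩ : ∃ n, Fintype.card Φ = n + 3 := ⟨Fintype.card Φ - 3, by omega⟩
        obtain ⟨k, hk⟩ : ∃ k, l = k + 2 := ⟨l - 2, by omega⟩
        have e := Nat.add_one_mul_choose_eq n k
        have e' : ((n : ℝ) + 1) * (n.choose k : ℝ) = ((n + 1).choose (k + 1) : ℝ) * ((k : ℝ) + 1) := by
          exact_mod_cast e
        rw [hn, hk] at hR ⊢
        have hR' : 2 * ((k : ℝ) + 2) ≤ (n : ℝ) + 3 := by exact_mod_cast hR
        rw [show n + 3 - 3 = n by omega, show k + 2 - 2 = k by omega, show n + 3 - 2 = n + 1 by omega,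
          show k + 2 - 1 = k + 1 by omega, zero_add]
        push_cast
        rw [mul_div_assoc', le_div_iff₀ (by positivity)]
        have hc1 : (0 : ℝ) ≤ ((n + 1).choose (k + 1) : ℝ) := Nat.cast_nonneg _
        have hn1 : (0 : ℝ) < (n : ℝ) + 1 := by positivity
        have key : (n.choose k : ℝ) * ((n : ℝ) + 3) * ((n : ℝ) + 1) ≤
            ((n + 1).choose (k + 1) : ℝ) * ((k : ℝ) + 2) * ((n : ℝ) + 1) := by
          have : (n.choose k : ℝ) * ((n : ℝ) + 3) * ((n : ℝ) + 1) =
              ((n + 1).choose (k + 1) : ℝ) * ((k : ℝ) + 1) * ((n : ℝ) + 3) := by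
            rw [← e']; ring
          rw [this, mul_assoc, mul_assoc]
          refine mul_le_mul_of_nonneg_left ?_ hc1
          nlinarith
        exact le_of_mul_le_mul_right key hn1

end Pool.Agent.Helper83.KK
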